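import Pool.Agent.L0h7.MS.Stm

/-! # Project MS: OPN, finitely many words determine the open sets -/

set_option autoImplicit false

namespace Pool.Agent.L0h90.MS

open Pool.Agent.L0h7.MS

theorem chi_cont (r : ℕ) : Continuous (chi : Marked r → FreeGroup (Fin r) → Bool) :=
  continuous_induced_dom

theorem chi_iff {r : ℕ} (N : Marked r) (w : FreeGroup (Fin r)) : chi N w = true ↔ w ∈ N.1 := by
  classical
  unfold chi
  exact decide_eq_true_iff

theorem t_OPN : S_OPN := by
  classical
  refine ⟨?_, ?_⟩
  · intro r w
    have h1 : {N : Marked r | w ∈ N.1} = (fun N : Marked r => chi N w) ⁻¹' {true} := by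
      ext N
      exact (chi_iff N w).symm
    rw [h1]
    have hc : Continuous (fun N : Marked r => chi N w) := (continuous_apply w).comp (chi_cont r)
    exact (isClopen_discrete {true}).preimage hc
  · intro r U hU N hN
    obtain ⟨V, hV, rfl⟩ := isOpen_induced_iff.1 hU
    obtain ⟨I, u, h1, h2⟩ := isOpen_pi_iff.1 hV (chi N) hN
    refine ⟨I, fun N' hN' => h2 ?_⟩
    intro a ha
    have h3 : chi N' a = chi N a := by
      rw [Bool.eq_iff_iff, chi_iff, chi_iff]
      exact hN' a ha
    rw [h3]
    exact (h1 a ha).2

end Pool.Agent.L0h90.MS
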